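import Pool.Agent.H505R3.RS.Mem
import Pool.Agent.H623R2.PS.TM

/-!
# REACHABLE SUBSET_k is PSPACE-complete for every fixed k ≥ 2

The definitions of the decision problem (`Inst`, `Inst.image`, `ReachableSubset`, `Inst.code`), of
polynomial space and of completeness are in `Pool.Agent.H623R2.PS.Defs`.
-/

namespace Pool.Agent.Results.MP_76b05e_lc.PSPACEComplete

open Pool.Agent.NPC Pool.Agent.H623R2.PS

/-- For every fixed `k ≥ 2` the problem REACHABLE SUBSET_k (given a DFA and a set `P` of `k` of its
states, is `P = Q . w` for some word `w`?) is `PSPACE`-complete under polynomial-time many-one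
reductions. In particular it has a polynomial-time algorithm if and only if `P = PSPACE`. -/
theorem result : ∀ k : ℕ, 2 ≤ k →
    Pool.Agent.H623R2.PS.PSPACEComplete (lang (ReachableSubset k)) ∧
      (InP (lang (ReachableSubset k)) ↔ ∀ L : Set (List Bool), InPSPACE L → InP L) :=
  fun k hk => ⟨⟨Pool.Agent.H505R3.RS.member k, hard hk⟩,
    fun h L hL => InP.of_reduces (hard hk L hL) h,
    fun h => h _ (Pool.Agent.H505R3.RS.member k)⟩

end Pool.Agent.Results.MP_76b05e_lc.PSPACEComplete
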